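import Mathlib
import Pool.Agent.Lib.lead.TwoSt
import Pool.Agent.Lib.lead.PrimFun

set_option autoImplicit false

namespace Pool.Agent.Results.MP_bcf1b9_lc.Undecidable

/-- Epistemic formulas over atoms `ℕ` and three agents. -/
inductive Fm
  | atom (p : ℕ)
  | neg (φ : Fm)
  | and (φ ψ : Fm)
  | K (i : Fin 3) (φ : Fm)

/-- Epistemic (Kripke) models. -/
structure Model where
  W : Type
  R : Fin 3 → W → W → Prop
  V : ℕ → W → Prop

/-- Action models. -/
structure Act where
  E : Type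
  S : Fin 3 → E → E → Prop
  pre : E → Fm

def sat (M : Model) : M.W → Fm → Prop
  | w, .atom p => M.V p w
  | w, .neg φ => ¬ sat M w φ
  | w, .and φ ψ => sat M w φ ∧ sat M w ψ
  | w, .K i φ => ∀ v, M.R i w v → sat M v φ

/-- Product update. -/
def upd (M : Model) (A : Act) : Model where
  W := {p : M.W × A.E // sat M p.1 (A.pre p.2)}
  R i p q := M.R i p.1.1 q.1.1 ∧ A.S i p.1.2 q.1.2
  V a p := M.V a p.1.1

def layer (M : Model) (A : Act) : ℕ → Model
  | 0 => M
  | n + 1 => upd (layer M A n) A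

/-- The update evolution model: the disjoint union of all layers. -/
def tree (M : Model) (A : Act) : Model where
  W := Σ n, (layer M A n).W
  R i x y := ∃ n, ∃ a b : (layer M A n).W, x = ⟨n, a⟩ ∧ y = ⟨n, b⟩ ∧ (layer M A n).R i a b
  V p x := (layer M A x.1).V p x.2

def IsBisim (M : Model) (Z : M.W → M.W → Prop) : Prop :=
  ∀ x y, Z x y → (∀ p, M.V p x ↔ M.V p y) ∧
    (∀ i x', M.R i x x' → ∃ y', M.R i y y' ∧ Z x' y') ∧
    (∀ i y', M.R i y y' → ∃ x', M.R i x x' ∧ Z x' y')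

def Bis (M : Model) (x y : M.W) : Prop := ∃ Z, IsBisim M Z ∧ Z x y

/-- Finitely many worlds meet every bisimulation class. -/
def FinMod (M : Model) : Prop := ∃ s : Set M.W, s.Finite ∧ ∀ x, ∃ y ∈ s, Bis M x y

/-- Codes of finite models: number of worlds, triples (agent, world, world), pairs (atom, world). -/
abbrev Code := ℕ × List (ℕ × ℕ × ℕ) × List (ℕ × ℕ)

def decode (c : Code) : Model where
  W := Fin c.1
  R i w v := (i.val, w.val, v.val) ∈ c.2.1
  V p w := (p, w.val) ∈ c.2.2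

/-! ### General facts -/

lemma sat_bis {M : Model} {Z : M.W → M.W → Prop} (hZ : IsBisim M Z) (φ : Fm) :
    ∀ x y, Z x y → (sat M x φ ↔ sat M y φ) := by
  induction φ with
  | atom p => exact fun x y h => (hZ x y h).1 p
  | neg φ ih => exact fun x y h => not_congr (ih x y h)
  | and φ ψ ih1 ih2 => exact fun x y h => and_congr (ih1 x y h) (ih2 x y h)
  | K i φ ih =>
    intro x y h
    constructor
    · intro hx v hv
      obtain ⟨x', h1, h2⟩ := (hZ x y h).2.2 i v hv
      exact (ih _ _ h2).1 (hx _ h1)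
    · intro hy v hv
      obtain ⟨y', h1, h2⟩ := (hZ x y h).2.1 i v hv
      exact (ih _ _ h2).2 (hy _ h1)

lemma tree_R {M : Model} {A : Act} {i : Fin 3} {n : ℕ} {a : (layer M A n).W} {y : (tree M A).W} :
    (tree M A).R i ⟨n, a⟩ y ↔ ∃ b, y = ⟨n, b⟩ ∧ (layer M A n).R i a b := by
  constructor
  · rintro ⟨m, a', b, h1, h2, h3⟩
    cases h1
    exact ⟨b, h2, h3⟩
  · rintro ⟨b, h1, h2⟩
    exact ⟨n, a, b, rfl, h1, h2⟩

lemma sat_tree (M : Model) (A : Act) (φ : Fm) (n : ℕ) :
    ∀ a : (layer M A n).W, sat (tree M A) ⟨n, a⟩ φ ↔ sat (layer M A n) a φ := by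
  induction φ with
  | atom p => exact fun a => Iff.rfl
  | neg φ ih => exact fun a => not_congr (ih a)
  | and φ ψ ih1 ih2 => exact fun a => and_congr (ih1 a) (ih2 a)
  | K i φ ih =>
    intro a
    constructor
    · intro h v hv
      exact (ih v).1 (h ⟨n, v⟩ (tree_R.2 ⟨v, rfl, hv⟩))
    · intro h v hv
      obtain ⟨b, rfl, hb⟩ := tree_R.1 hv
      exact (ih b).2 (h b hb)

/-! ### Stack configurations as models -/

section stk
variable {L : Type} (cd : Fin 4 → L → ℕ)

abbrev Cfg (L : Type) := Fin 4 → List L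
abbrev Loc (L : Type) := Bool × Fin 4 × L × ℕ

def valid (c : Cfg L) (l : Loc L) : Prop :=
  (l.1 = true ∧ l.2.2.2 = 0) ∨ (l.1 = false ∧ (c l.2.1)[l.2.2.2]? = some l.2.2.1)

def Rl (i : Fin 3) (x y : Loc L) : Prop :=
  i = 0 ∨ (i = 1 ∧ x.1 = true ∧ y.1 = true) ∨
    (i = 2 ∧ x.2.1 = y.2.1 ∧ (y.1 = true ∨ (x.1 = false ∧ x.2.2.2 < y.2.2.2)))

structure Mor (N : Model) (c : Cfg L) (f : N.W → Loc L) : Prop where
  val : ∀ w, valid c (f w)
  atm : ∀ p w, N.V p w ↔ p = cd (f w).2.1 (f w).2.2.1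
  fwd : ∀ i w v, N.R i w v → Rl i (f w) (f v)
  bck : ∀ i w l, valid c l → Rl i (f w) l → ∃ v, N.R i w v ∧ f v = l
  sur : ∀ l, valid c l → ∃ w, f w = l

def Df (P : Cfg L → Loc L → Prop) : Prop :=
  ∃ φ : Fm, ∀ (N : Model) (c : Cfg L) (f : N.W → Loc L), Mor cd N c f → ∀ w, sat N w φ ↔ P c (f w)

variable {cd}

lemma Df.congr {P Q : Cfg L → Loc L → Prop} (h : Df cd P)
    (e : ∀ c l, valid c l → (P c l ↔ Q c l)) : Df cd Q := by
  obtain ⟨φ, h⟩ := h
  exact ⟨φ, fun N c f m w => (h N c f m w).trans (e _ _ (m.val w))⟩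

lemma Df.not {P : Cfg L → Loc L → Prop} (h : Df cd P) : Df cd fun c l => ¬ P c l := by
  obtain ⟨φ, h⟩ := h
  exact ⟨.neg φ, fun N c f m w => not_congr (h N c f m w)⟩

lemma Df.and {P Q : Cfg L → Loc L → Prop} (h : Df cd P) (h' : Df cd Q) :
    Df cd fun c l => P c l ∧ Q c l := by
  obtain ⟨φ, h⟩ := h
  obtain ⟨ψ, h'⟩ := h'
  exact ⟨.and φ ψ, fun N c f m w => and_congr (h N c f m w) (h' N c f m w)⟩

lemma Df.or {P Q : Cfg L → Loc L → Prop} (h : Df cd P) (h' : Df cd Q) :
    Df cd fun c l => P c l ∨ Q c l :=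
  (h.not.and h'.not).not.congr fun c l _ => by tauto

lemma Df.atom (p : ℕ) : Df cd fun _ l => p = cd l.2.1 l.2.2.1 :=
  ⟨.atom p, fun _ _ _ m w => m.atm p w⟩

lemma Df.const (p : Prop) : Df cd fun _ _ => p := by
  by_cases h : p
  · exact ((Df.atom 0).or (Df.atom 0).not).congr fun c l _ => by tauto
  · exact ((Df.atom 0).and (Df.atom 0).not).congr fun c l _ => by tauto

lemma Df.dia (i : Fin 3) {P : Cfg L → Loc L → Prop} (h : Df cd P) :
    Df cd fun c l => ∃ l', valid c l' ∧ Rl i l l' ∧ P c l' := by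
  obtain ⟨φ, h⟩ := h
  refine ⟨.neg (.K i (.neg φ)), fun N c f m w => ?_⟩
  simp only [sat, not_forall, not_not, exists_prop]
  constructor
  · rintro ⟨v, h1, h2⟩
    exact ⟨f v, m.val v, m.fwd i w v h1, (h N c f m v).1 h2⟩
  · rintro ⟨l, h1, h2, h3⟩
    obtain ⟨v, h4, rfl⟩ := m.bck i w l h1 h2
    exact ⟨v, h4, (h N c f m v).2 h3⟩

lemma Df.ex {ι : Type} [Finite ι] {P : ι → Cfg L → Loc L → Prop} (h : ∀ j, Df cd (P j)) :
    Df cd fun c l => ∃ j, P j c l := by
  have : ∀ t : List ι, Df cd fun c l => ∃ j ∈ t, P j c l := by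
    intro t
    induction t with
    | nil => exact (Df.const False).congr fun c l _ => by simp
    | cons a t ih => exact ((h a).or ih).congr fun c l _ => by simp
  have inst := Fintype.ofFinite ι
  exact (this Finset.univ.toList).congr fun c l _ => by simp

lemma Df.all {ι : Type} [Finite ι] {P : ι → Cfg L → Loc L → Prop} (h : ∀ j, Df cd (P j)) :
    Df cd fun c l => ∀ j, P j c l :=
  (Df.ex fun j => (h j).not).not.congr fun c l _ => by simp

lemma Df.res : Df cd fun _ l => l.1 = true :=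
  ((Df.const True).dia 1).congr fun c l _ => by
    constructor
    · rintro ⟨l', -, h, -⟩
      simp [Rl] at h
      exact h.1
    · intro h
      exact ⟨(true, l.2.1, l.2.2.1, 0), Or.inl ⟨rfl, rfl⟩, by simp [Rl, h], trivial⟩

lemma Df.depth (k : ℕ) : Df cd fun c l => l.1 = false ∧ l.2.2.2 + k < (c l.2.1).length := by
  induction k with
  | zero =>
    refine Df.res.not.congr fun c l hv => ?_
    rcases hv with ⟨h, -⟩ | ⟨h, h'⟩
    · simp [h]
    · have := (List.getElem?_eq_some_iff.1 h').1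
      simp [h, this]
  | succ k ih =>
    refine (Df.res.not.and (ih.dia 2)).congr fun c l _ => ?_
    constructor
    · rintro ⟨h, l', -, h2, h3, h4⟩
      simp only [Rl, h3] at h2
      simp at h2 h
      refine ⟨h, ?_⟩
      rw [h2.1]
      omega
    · rintro ⟨h, h'⟩
      refine ⟨by simp [h], (false, l.2.1, (c l.2.1)[l.2.2.2 + 1]'(by omega), l.2.2.2 + 1),
        Or.inr ⟨rfl, by simp⟩, by simp [Rl, h], rfl, ?_⟩
      simp only
      omega

variable [Finite L]

lemma Df.letter (hcd : ∀ s a s' a', cd s a = cd s' a' → s = s' ∧ a = a') (s : Fin 4) (a : L) :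
    Df cd fun _ l => l.2.1 = s ∧ l.2.2.1 = a :=
  (Df.atom (cd s a)).congr fun c l _ =>
    ⟨fun h => ⟨(hcd _ _ _ _ h).1.symm, (hcd _ _ _ _ h).2.symm⟩, fun h => by rw [h.1, h.2]⟩

lemma Df.top (hcd : ∀ s a s' a', cd s a = cd s' a' → s = s' ∧ a = a') (s : Fin 4) (o : Option L) :
    Df cd fun c _ => (c s).getLast? = o := by
  have h1 : ∀ a, Df cd fun c _ => (c s).getLast? = some a := by
    intro a
    refine (((Df.letter hcd s a).and ((Df.depth 0).and (Df.depth 1).not)).dia 0).congr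
      fun c l _ => ?_
    constructor
    · rintro ⟨⟨r, s', a', h⟩, hv, -, ⟨rfl, rfl⟩, ⟨h1, h2⟩, h3⟩
      simp only at h1 h2 h3
      subst h1
      simp only [valid] at hv
      simp at hv h3
      rw [List.getLast?_eq_getElem?, ← hv]
      congr 1
      dsimp only
      omega
    · intro h
      have hl : 0 < (c s).length := by
        rcases hc : c s with _ | ⟨x, t⟩
        · simp [hc] at h
        · simp
      refine ⟨(false, s, a, (c s).length - 1), Or.inr ⟨rfl, ?_⟩, Or.inl rfl, ⟨rfl, rfl⟩,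
        ⟨rfl, ?_⟩, ?_⟩
      · rw [← h, List.getLast?_eq_getElem?]
      · simp only
        omega
      · simp only [true_and]
        omega
  cases o with
  | some a => exact h1 a
  | none =>
    refine (Df.all fun a => (h1 a).not).congr fun c l _ => ?_
    cases (c s).getLast? <;> simp

lemma Df.glob (hcd : ∀ s a s' a', cd s a = cd s' a' → s = s' ∧ a = a')
    (G : (Fin 4 → Option L) → Fin 4 → L → Prop) :
    Df cd fun c l => G (fun s => (c s).getLast?) l.2.1 l.2.2.1 :=
  (Df.ex fun t : (Fin 4 → Option L) × Fin 4 × L =>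
    ((Df.const (G t.1 t.2.1 t.2.2)).and
      ((Df.all fun s => Df.top hcd s (t.1 s)).and (Df.letter hcd t.2.1 t.2.2)))).congr
    fun c l _ => by
      constructor
      · rintro ⟨⟨t, s, a⟩, h1, h2, h3, h4⟩
        simp only at h1 h2 h3 h4
        rw [funext h2, h3, h4]
        exact h1
      · intro h
        exact ⟨(_, _, _), h, fun _ => rfl, rfl, rfl⟩

variable (δ : (Fin 4 → Option L) → Option (Cfg L))

def nxt (c : Cfg L) : Option (Cfg L) := δ fun s => (c s).getLast?

def stp (c : Cfg L) : Cfg L := fun s =>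
  match nxt δ c with
  | some W => (c s).dropLast ++ W s
  | none => []

def SE (m : ℕ) (i : Fin 3) (e e' : Bool ⊕ Fin m) : Prop :=
  i = 0 ∨ (i = 1 ∧ e = .inl true ∧ e' = .inl true) ∨
    (i = 2 ∧ (e' = .inl true ∨ e = .inl false ∨ ∃ j j', e = .inr j ∧ e' = .inr j' ∧ j < j'))

def PE (m : ℕ) : Bool ⊕ Fin m → Cfg L → Loc L → Prop
  | .inl true => fun _ l => l.1 = true
  | .inl false => fun c l => (l.1 = false ∧ l.2.2.2 + 1 < (c l.2.1).length) ∧ nxt δ c ≠ none
  | .inr j => fun c l => l.1 = true ∧ ∃ W, nxt δ c = some W ∧ (W l.2.1)[j.val]? = some l.2.2.1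

lemma df_PE (hcd : ∀ s a s' a', cd s a = cd s' a' → s = s' ∧ a = a') (m : ℕ) (e : Bool ⊕ Fin m) :
    Df cd (PE δ m e) := by
  rcases e with (_ | _) | j
  · exact (Df.depth 1).and (Df.glob hcd fun t _ _ => δ t ≠ none)
  · exact Df.res
  · exact Df.res.and (Df.glob hcd fun t s a => ∃ W, δ t = some W ∧ (W s)[j.val]? = some a)

def nl (m : ℕ) (c : Cfg L) (l : Loc L) : Bool ⊕ Fin m → Loc L
  | .inl _ => l
  | .inr j => (false, l.2.1, l.2.2.1, (c l.2.1).length - 1 + j.val)

omit [Finite L] in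
lemma nl_valid (m : ℕ) (c : Cfg L) (l : Loc L) (hv : valid c l) (e : Bool ⊕ Fin m)
    (h : PE δ m e c l) : valid (stp δ c) (nl m c l e) := by
  rcases e with (_ | _) | j
  · obtain ⟨⟨h1, h2⟩, h3⟩ := h
    obtain ⟨W, hW⟩ := Option.ne_none_iff_exists'.1 h3
    rcases hv with ⟨h, -⟩ | ⟨-, h⟩
    · simp [h1] at h
    · refine Or.inr ⟨h1, ?_⟩
      simp only [stp, hW, nl]
      rw [List.getElem?_append_left (by simp; omega), List.getElem?_dropLast, if_pos (by omega), h]
  · rcases hv with h' | ⟨h', -⟩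
    · exact Or.inl h'
    · simp [PE, h'] at h
  · obtain ⟨-, W, hW, h⟩ := h
    refine Or.inr ⟨rfl, ?_⟩
    simp only [stp, hW, nl]
    rw [List.getElem?_append_right (by simp)]
    simpa using h

omit [Finite L] in
lemma nl_sur (m : ℕ) (hm : ∀ t W s, δ t = some W → (W s).length ≤ m) (c : Cfg L) (l' : Loc L)
    (hv : valid (stp δ c) l') : ∃ l e, valid c l ∧ PE δ m e c l ∧ nl m c l e = l' := by
  obtain ⟨r, s, a, h⟩ := l'
  rcases hv with hv | ⟨h1, h2⟩
  · exact ⟨_, .inl true, Or.inl hv, hv.1, rfl⟩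
  · simp only at h1 h2
    subst h1
    rcases hW : nxt δ c with _ | W
    · simp [stp, hW] at h2
    · simp only [stp, hW] at h2
      by_cases hh : h < (c s).length - 1
      · rw [List.getElem?_append_left (by simpa using hh), List.getElem?_dropLast,
          if_pos hh] at h2
        refine ⟨(false, s, a, h), .inl false, Or.inr ⟨rfl, h2⟩, ⟨⟨rfl, ?_⟩, by simp [hW]⟩, rfl⟩
        simp only
        omega
      · rw [List.getElem?_append_right (by simpa using hh)] at h2
        have h3 := (List.getElem?_eq_some_iff.1 h2).1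
        have h4 := hm _ W s hW
        simp only [List.length_dropLast] at h2 h3
        refine ⟨(true, s, a, 0), .inr ⟨h - ((c s).length - 1), by omega⟩, Or.inl ⟨rfl, rfl⟩,
          ⟨rfl, W, hW, h2⟩, ?_⟩
        simp only [nl, Prod.mk.injEq, true_and]
        omega

omit [Finite L] in
lemma nl_rel (m : ℕ) (c : Cfg L) (i : Fin 3) (l l' : Loc L) (e e' : Bool ⊕ Fin m)
    (h : PE δ m e c l) (h' : PE δ m e' c l') :
    Rl i (nl m c l e) (nl m c l' e') ↔ Rl i l l' ∧ SE m i e e' := by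
  obtain ⟨r, s, a, k⟩ := l
  obtain ⟨r', s', a', k'⟩ := l'
  rcases e with (_ | _) | j <;> rcases e' with (_ | _) | j' <;>
    simp only [PE] at h h' <;> fin_cases i <;> simp [Rl, SE, nl, h, h']
  all_goals (rintro rfl; omega)

variable {δ}

omit [Finite L] in
lemma mor_step {m : ℕ} (hm : ∀ t W s, δ t = some W → (W s).length ≤ m)
    {pre : Bool ⊕ Fin m → Fm} (hp : ∀ e (N : Model) (c : Cfg L) (f : N.W → Loc L),
      Mor cd N c f → ∀ w, sat N w (pre e) ↔ PE δ m e c (f w))
    {N : Model} {c : Cfg L} {f : N.W → Loc L} (h : Mor cd N c f) :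
    Mor cd (upd N ⟨Bool ⊕ Fin m, SE m, pre⟩) (stp δ c) fun p => nl m c (f p.1.1) p.1.2 := by
  refine ⟨fun p => nl_valid δ m c _ (h.val _) _ ((hp _ N c f h _).1 p.2), ?_, ?_, ?_, ?_⟩
  · rintro p ⟨⟨w, e⟩, hw⟩
    refine (h.atm p w).trans ?_
    rcases e with _ | _ <;> rfl
  · rintro i ⟨⟨w, e⟩, hw⟩ ⟨⟨v, e'⟩, hv⟩ ⟨h1, h2⟩
    exact (nl_rel δ m c i _ _ _ _ ((hp _ N c f h _).1 hw) ((hp _ N c f h _).1 hv)).2
      ⟨h.fwd i w v h1, h2⟩
  · rintro i ⟨⟨w, e⟩, hw⟩ l' hv hr
    obtain ⟨l, e', h1, h2, rfl⟩ := nl_sur δ m hm c l' hv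
    obtain ⟨h3, h4⟩ := (nl_rel δ m c i _ _ _ _ ((hp _ N c f h _).1 hw) h2).1 hr
    obtain ⟨v, h5, rfl⟩ := h.bck i w l h1 h3
    exact ⟨⟨(v, e'), (hp _ N c f h _).2 h2⟩, ⟨h5, h4⟩, rfl⟩
  · intro l' hv
    obtain ⟨l, e', h1, h2, rfl⟩ := nl_sur δ m hm c l' hv
    obtain ⟨v, rfl⟩ := h.sur l h1
    exact ⟨⟨(v, e'), (hp _ N c f h _).2 h2⟩, rfl⟩

lemma valid_finite (c : Cfg L) : {l | valid c l}.Finite := by
  refine ((Set.finite_univ (α := Bool)).prod ((Set.finite_univ (α := Fin 4)).prod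
    ((Set.finite_univ (α := L)).prod (Set.finite_Iic (∑ s, (c s).length))))).subset ?_
  rintro ⟨r, s, a, k⟩ (h | h)
  · simp only at h
    simp [h.2]
  · have h1 := (List.getElem?_eq_some_iff.1 h.2).1
    have h2 : (c s).length ≤ ∑ s, (c s).length :=
      Finset.single_le_sum (f := fun s => (c s).length) (fun _ _ => Nat.zero_le _)
        (Finset.mem_univ s)
    simp only at h1
    simp only [Set.mem_prod, Set.mem_univ, Set.mem_Iic, true_and]
    omega

lemma fin_of {M : Model} {A : Act} {c : ℕ → Cfg L} {f : ∀ n, (layer M A n).W → Loc L}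
    (h : ∀ n, Mor cd (layer M A n) (c n) (f n)) (hc : (Set.range c).Finite) :
    FinMod (tree M A) := by
  let F : (tree M A).W → Cfg L × Loc L := fun x => (c x.1, f x.1 x.2)
  have hF : (Set.range F).Finite := by
    refine (hc.biUnion (t := fun d => {d} ×ˢ {l | valid d l}) fun d _ =>
      (Set.finite_singleton d).prod (valid_finite d)).subset ?_
    rintro _ ⟨x, rfl⟩
    simp only [Set.mem_iUnion]
    exact ⟨c x.1, ⟨x.1, rfl⟩, rfl, (h x.1).val x.2⟩
  have key : ∀ x y : (tree M A).W, F x = F y → ∀ i x', (tree M A).R i x x' →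
      ∃ y', (tree M A).R i y y' ∧ F x' = F y' := by
    rintro ⟨n, a⟩ ⟨k, b⟩ e i x' hx
    obtain ⟨a', rfl, ha⟩ := tree_R.1 hx
    simp only [F, Prod.mk.injEq] at e
    obtain ⟨v, h1, h2⟩ := (h k).bck i b (f n a') (e.1 ▸ (h n).val a')
      (e.2 ▸ (h n).fwd i a a' ha)
    exact ⟨⟨k, v⟩, tree_R.2 ⟨v, rfl, h1⟩, Prod.ext e.1 h2.symm⟩
  have hZ : IsBisim (tree M A) fun x y => F x = F y := by
    intro x y e
    refine ⟨fun p => ?_, key x y e, fun i y' hy => ?_⟩
    · have e2 : f x.1 x.2 = f y.1 y.2 := congrArg Prod.snd e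
      exact ((h x.1).atm p x.2).trans (e2 ▸ ((h y.1).atm p y.2).symm)
    · obtain ⟨x', h1, h2⟩ := key y x e.symm i y' hy
      exact ⟨x', h1, h2.symm⟩
  have := hF.to_subtype
  refine ⟨Set.range (Set.rangeSplitting F), Set.finite_range _, fun x => ?_⟩
  exact ⟨_, ⟨⟨F x, x, rfl⟩, rfl⟩, _, hZ, (Set.apply_rangeSplitting F ⟨F x, x, rfl⟩).symm⟩

omit [Finite L] in
lemma inf_of {M : Model} {A : Act} {c : ℕ → Cfg L} {f : ∀ n, (layer M A n).W → Loc L}
    (h : ∀ n, Mor cd (layer M A n) (c n) (f n)) (hc : ∀ n, (c n 3).length = n + 1) :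
    ¬ FinMod (tree M A) := by
  rintro ⟨s, hs, hb⟩
  have h0 : ∀ n, ∃ w, (f n w).1 = false ∧ (f n w).2.1 = 3 ∧ (f n w).2.2.2 = 0 := by
    intro n
    obtain ⟨w, hw⟩ := (h n).sur (false, 3, (c n 3)[0]'(by rw [hc]; omega), 0)
      (Or.inr ⟨rfl, by simp⟩)
    exact ⟨w, by simp [hw]⟩
  choose x hx using h0
  choose g hg hg' using hb
  have := hs.to_subtype
  have main : ∀ n k, n < k → g ⟨n, x n⟩ ≠ g ⟨k, x k⟩ := by
    intro n k hlt e
    obtain ⟨φ, hφ⟩ := Df.depth (cd := cd) k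
    obtain ⟨Z, hZ, h1⟩ := hg' ⟨n, x n⟩
    obtain ⟨Z', hZ', h2⟩ := hg' ⟨k, x k⟩
    have e1 := sat_bis hZ φ _ _ h1
    have e2 := sat_bis hZ' φ _ _ h2
    rw [e, ← e2, sat_tree, sat_tree, hφ _ _ _ (h n), hφ _ _ _ (h k)] at e1
    simp only [hx, hc, true_and] at e1
    have := e1.2 (by omega)
    omega
  obtain ⟨n, k, hne, e⟩ := Finite.exists_ne_map_eq_of_infinite
    fun n => (⟨g ⟨n, x n⟩, hg _⟩ : s)
  have e' := congrArg Subtype.val e
  rcases lt_or_gt_of_ne hne with h1 | h1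
  · exact main _ _ h1 e'
  · exact main _ _ h1 e'.symm

end stk

/-! ### The two-stack machine -/

section two
variable {Q A : Type} (δ : Q → A → A → Option (Q × List A × List A))

def dl (t : Fin 4 → Option (Q ⊕ A)) : Option (Cfg (Q ⊕ A)) :=
  match t 0, t 1, t 2, t 3 with
  | some (.inr x), some (.inr y), some (.inl q), some z => (δ q x y).map fun p =>
      ![(p.2.1.map .inr).reverse, (p.2.2.map .inr).reverse, [.inl p.1], [z, z]]
  | _, _, _, _ => none

def emb (z : A) (k : ℕ) (s : Q × List A × List A) : Cfg (Q ⊕ A) :=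
  ![(s.2.1.map .inr).reverse, (s.2.2.map .inr).reverse, [.inl s.1], List.replicate (k + 1) (.inr z)]

lemma stp_emb (z : A) (k : ℕ) (s : Q × List A × List A) :
    stp (dl δ) (emb z k s) =
      match LeadTwo.step δ s with
      | some s' => emb z (k + 1) s'
      | none => fun _ => [] := by
  obtain ⟨q, l, r⟩ := s
  have e3 : (List.replicate (k + 1) (Sum.inr z : Q ⊕ A)).getLast? = some (.inr z) := by
    simp [List.getLast?_replicate]
  rcases l with _ | ⟨x, l⟩
  · funext s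
    simp [stp, nxt, dl, emb, LeadTwo.step]
  rcases r with _ | ⟨y, r⟩
  · funext s
    simp [stp, nxt, dl, emb, LeadTwo.step]
  have hn : nxt (dl δ) (emb z k (q, x :: l, y :: r)) = (δ q x y).map fun p =>
      ![(p.2.1.map .inr).reverse, (p.2.2.map .inr).reverse, [.inl p.1], [.inr z, .inr z]] := by
    simp [nxt, dl, emb, e3]
  funext s
  rcases hd : δ q x y with _ | p
  · simp [stp, hn, LeadTwo.step, hd]
  · simp only [stp, hn, LeadTwo.step, hd, Option.map_some]
    fin_cases s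
    · simp [emb]
    · simp [emb]
    · simp [emb]
    · simp only [emb]
      simp [List.replicate_succ']

lemma stp_nil : stp (dl δ) (fun _ => []) = fun _ => [] := by
  funext s
  simp [stp, nxt, dl]

lemma halt_fin (z : A) (s0 : Q × List A × List A)
    (h : (StateTransition.eval (LeadTwo.step δ) s0).Dom) :
    (Set.range fun n => (stp (dl δ))^[n] (emb z 0 s0)).Finite := by
  obtain ⟨b, hb⟩ := Part.dom_iff_mem.1 h
  obtain ⟨h1, h2⟩ := StateTransition.mem_eval.1 hb
  have : ∃ k, (stp (dl δ))^[k] (emb z 0 s0) = emb z k b := by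
    clear h2 hb
    induction h1 with
    | refl => exact ⟨0, rfl⟩
    | tail _ h3 ih =>
      obtain ⟨k, hk⟩ := ih
      refine ⟨k + 1, ?_⟩
      rw [Function.iterate_succ_apply', hk, stp_emb, Option.mem_def.1 h3]
  obtain ⟨k, hk⟩ := this
  have h3 : ∀ j, (stp (dl δ))^[k + 1 + j] (emb z 0 s0) = fun _ => [] := by
    intro j
    induction j with
    | zero => rw [Nat.add_zero, Function.iterate_succ_apply', hk, stp_emb, h2]
    | succ j ih => rw [← Nat.add_assoc, Function.iterate_succ_apply', ih, stp_nil]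
  refine ((Set.finite_Iic (k + 1)).image fun n => (stp (dl δ))^[n] (emb z 0 s0)).subset ?_
  rintro _ ⟨n, rfl⟩
  by_cases hn : n ≤ k + 1
  · exact ⟨n, hn, rfl⟩
  · obtain ⟨j, rfl⟩ : ∃ j, n = k + 1 + j := ⟨n - (k + 1), by omega⟩
    exact ⟨k + 1, Set.mem_Iic.2 le_rfl, (h3 0).trans (h3 j).symm⟩

lemma run_inf (z : A) (s0 : Q × List A × List A)
    (h : ¬ (StateTransition.eval (LeadTwo.step δ) s0).Dom) (n : ℕ) :
    ((stp (dl δ))^[n] (emb z 0 s0) 3).length = n + 1 := by
  have : ∃ s, StateTransition.Reaches (LeadTwo.step δ) s0 s ∧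
      (stp (dl δ))^[n] (emb z 0 s0) = emb z n s := by
    induction n with
    | zero => exact ⟨s0, Relation.ReflTransGen.refl, rfl⟩
    | succ n ih =>
      obtain ⟨s, h1, h2⟩ := ih
      rcases hs : LeadTwo.step δ s with _ | s'
      · exact absurd (Part.dom_iff_mem.2 ⟨s, StateTransition.mem_eval.2 ⟨h1, hs⟩⟩) h
      · exact ⟨s', Relation.ReflTransGen.tail h1 hs, by
          rw [Function.iterate_succ_apply', h2, stp_emb, hs]⟩
  obtain ⟨s, -, h2⟩ := this
  rw [h2]
  simp [emb]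

end two

/-! ### Coding -/

abbrev D := Bool × ℕ × ℕ × ℕ

def leb (x y : ℕ) : Bool := decide (x ≤ y)
def eqn (x y : ℕ) : Bool := decide (x = y)
def gD (T : List D) (w : ℕ) : D := T.getD w (false, 0, 0, 0)

def relD (i : ℕ) (x y : D) : Bool :=
  eqn i 0 || (eqn i 1 && x.1 && y.1) ||
    (eqn i 2 && eqn x.2.1 y.2.1 && (y.1 || (!x.1 && leb (x.2.2.2 + 1) y.2.2.2)))

def mk (T : List D) : Code :=
  (T.length, (List.range 3).flatMap fun i => (List.range T.length).flatMap fun w =>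
    ((List.range T.length).filter fun v => relD i (gD T w) (gD T v)).map fun v => (i, w, v),
    (List.range T.length).map fun w => ((gD T w).2.2.1, w))

open LeadPrim in
lemma prim_mk : Primrec mk := by
  have h1 : ∀ {α : Type} [Primcodable α] {x y : α → ℕ}, PR x → PR y → PR fun a => leb (x a) (y a) :=
    fun hx hy => PR.decide_le hx hy
  have h2 : ∀ {α : Type} [Primcodable α] {x y : α → ℕ}, PR x → PR y → PR fun a => eqn (x a) (y a) :=
    fun hx hy => PR.decide_eq hx hy
  have h3 : PR fun p : ℕ × D × D => relD p.1 p.2.1 p.2.2 := by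
    unfold relD
    refine PR.or (PR.or (h2 ?_ ?_) (PR.and (PR.and (h2 ?_ ?_) ?_) ?_))
      (PR.and (PR.and (h2 ?_ ?_) (h2 ?_ ?_)) (PR.or ?_ (PR.and (PR.not ?_) (h1 ?_ ?_)))) <;>
      fun_prop
  have h4 : PR fun p : List D × ℕ => gD p.1 p.2 := by
    unfold gD
    fun_prop
  have h5 : ∀ {α : Type} [Primcodable α] {x : α → List D} {y : α → ℕ}, PR x → PR y →
      PR fun a => gD (x a) (y a) := fun hx hy => PR.comp h4 (PR.pair hx hy)
  have h6 : ∀ {α : Type} [Primcodable α] {i : α → ℕ} {x y : α → D}, PR i → PR x → PR y →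
      PR fun a => relD (i a) (x a) (y a) := fun hi hx hy => PR.comp h3 (PR.pair hi (PR.pair hx hy))
  apply PR.prim
  unfold mk
  refine PR.pair (by fun_prop) (PR.pair (PR.flatMap (PR.flatMap (PR.map (by fun_prop)
    (PR.filter (h6 (by fun_prop) (h5 (by fun_prop) (by fun_prop)) (h5 (by fun_prop) (by fun_prop)))
      (by fun_prop))) (by fun_prop)) (by fun_prop)) (PR.map (PR.pair (PR.fst (PR.snd (PR.snd
        (h5 (by fun_prop) (by fun_prop))))) (by fun_prop)) (by fun_prop)))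

section code
variable {L : Type} (cd : Fin 4 → L → ℕ)

def enc (l : Loc L) : D := (l.1, l.2.1.val, cd l.2.1 l.2.2.1, l.2.2.2)

lemma rel_enc (i : Fin 3) (x y : Loc L) : relD i.val (enc cd x) (enc cd y) = true ↔ Rl i x y := by
  fin_cases i <;> simp [relD, Rl, enc, eqn, leb, Fin.val_inj, Nat.succ_le_iff]

lemma mor_mk (c : Cfg L) (ws : List (Loc L)) (h : ∀ l, l ∈ ws ↔ valid c l) :
    Mor cd (decode (mk (ws.map (enc cd)))) c fun w => ws[w.val]'(by simpa [mk] using w.2) := by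
  have hg : ∀ w (hw : w < ws.length), gD (ws.map (enc cd)) w = enc cd ws[w] := by
    intro w hw
    simp [gD, hw]
  have hR : ∀ (i : Fin 3) (w v : (decode (mk (ws.map (enc cd)))).W),
      (decode (mk (ws.map (enc cd)))).R i w v ↔
        Rl i (ws[w.val]'(by simpa [mk] using w.2)) (ws[v.val]'(by simpa [mk] using v.2)) := by
    rintro i ⟨w, hw⟩ ⟨v, hv⟩
    have hw' : w < ws.length := by simpa [mk] using hw
    have hv' : v < ws.length := by simpa [mk] using hv
    rw [← rel_enc cd, ← hg w hw', ← hg v hv']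
    simp [decode, mk, hw', hv']
  have hs : ∀ l, valid c l → ∃ w : (decode (mk (ws.map (enc cd)))).W,
      ws[w.val]'(by simpa [mk] using w.2) = l := by
    intro l hl
    obtain ⟨w, hw, e⟩ := List.getElem_of_mem ((h l).2 hl)
    exact ⟨⟨w, by simpa [mk] using hw⟩, e⟩
  refine ⟨fun w => (h _).1 (List.getElem_mem _), ?_, fun i w v => (hR i w v).1, ?_, hs⟩
  · rintro p ⟨w, hw⟩
    have hw' : w < ws.length := by simpa [mk] using hw
    simp only [decode, mk, List.mem_map, List.mem_range, Prod.mk.injEq, List.length_map]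
    constructor
    · rintro ⟨v, -, h1, rfl⟩
      rw [← h1, hg _ hw']
      rfl
    · rintro rfl
      exact ⟨w, hw', by rw [hg _ hw']; rfl, rfl⟩
  · intro i w l h1 h2
    obtain ⟨v, rfl⟩ := hs l h1
    exact ⟨v, (hR i w v).2 h2, rfl⟩

def cells (s : Fin 4) (t : List L) : List (Loc L) := t.zipIdx.map fun p => (false, s, p.1, p.2)

def cellsD (s : ℕ) (t : List ℕ) : List D :=
  (List.range t.length).map fun h => (false, s, t.getD h 0, h)

lemma cells_enc (s : Fin 4) (t : List L) :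
    (cells s t).map (enc cd) = cellsD s.val (t.map (cd s)) := by
  apply List.ext_getElem
  · simp [cells, cellsD]
  · intro k h1 h2
    have : k < t.length := by simpa [cells] using h1
    simp [cells, cellsD, enc, this]

lemma mem_cells (s : Fin 4) (t : List L) (l : Loc L) :
    l ∈ cells s t ↔ l.1 = false ∧ l.2.1 = s ∧ t[l.2.2.2]? = some l.2.2.1 := by
  obtain ⟨r, s', a, k⟩ := l
  simp only [cells, List.mem_map, Prod.mk.injEq, Prod.exists, List.mem_zipIdx_iff_getElem?]
  constructor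
  · rintro ⟨a', k', h, rfl, rfl, rfl, rfl⟩
    exact ⟨rfl, rfl, by simpa using h⟩
  · rintro ⟨rfl, rfl, h⟩
    exact ⟨a, k, by simpa using h, rfl, rfl, rfl, rfl⟩

end code

theorem result : ∃ A : Act, Finite A.E ∧
    ¬ ComputablePred fun c : Code => FinMod (tree (decode c) A) := by
  obtain ⟨Q, A, fQ, fA, δ, q0, b, a0, a1, a2, hu⟩ := LeadTwo.exists_two
  obtain ⟨e, he⟩ := Countable.exists_injective_nat (Fin 4 × (Q ⊕ A))
  let cd : Fin 4 → Q ⊕ A → ℕ := fun s a => e (s, a)
  have hcd : ∀ s a s' a', cd s a = cd s' a' → s = s' ∧ a = a' :=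
    fun s a s' a' h => Prod.mk.inj (he h)
  obtain ⟨m, hm⟩ : ∃ m, ∀ t W s, dl δ t = some W → (W s).length ≤ m := by
    obtain ⟨m, hm⟩ := (Set.finite_range fun p : (Fin 4 → Option (Q ⊕ A)) × Fin 4 =>
      (((dl δ p.1).getD fun _ => []) p.2).length).bddAbove
    refine ⟨m, fun t W s h => ?_⟩
    have := hm ⟨(t, s), rfl⟩
    simpa [h] using this
  choose pre hp using df_PE (dl δ) hcd m
  refine ⟨⟨Bool ⊕ Fin m, SE m, pre⟩, inferInstanceAs (Finite (Bool ⊕ Fin m)), fun hP => hu ?_⟩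
  let s0 : ℕ → Q × List A × List A := fun n => (q0, [b], a0 :: a1 :: (List.replicate n a2 ++ [b]))
  have inst := Fintype.ofFinite (Fin 4 × (Q ⊕ A))
  let rs : List (Loc (Q ⊕ A)) :=
    (Finset.univ : Finset (Fin 4 × (Q ⊕ A))).toList.map fun p => (true, p.1, p.2, 0)
  let ws : ℕ → List (Loc (Q ⊕ A)) := fun n =>
    (rs ++ cells 0 [.inr b] ++ cells 2 [.inl q0] ++ cells 3 [.inr b]) ++
      cells 1 (emb b 0 (s0 n) 1)
  have hws : ∀ n l, l ∈ ws n ↔ valid (emb b 0 (s0 n)) l := by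
    rintro n ⟨r, s, a, k⟩
    simp only [ws, rs, List.mem_append, mem_cells, valid, List.mem_map, Finset.mem_toList,
      Finset.mem_univ, true_and, Prod.mk.injEq, Prod.exists]
    cases r
    · fin_cases s <;> simp [emb, s0]
    · simp [eq_comm]
  have key : ∀ n, FinMod (tree (decode (mk ((ws n).map (enc cd)))) ⟨Bool ⊕ Fin m, SE m, pre⟩) ↔
      (StateTransition.eval (LeadTwo.step δ) (s0 n)).Dom := by
    intro n
    have : ∀ k, ∃ f, Mor cd (layer (decode (mk ((ws n).map (enc cd)))) ⟨Bool ⊕ Fin m, SE m, pre⟩ k)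
        ((stp (dl δ))^[k] (emb b 0 (s0 n))) f := by
      intro k
      induction k with
      | zero => exact ⟨_, mor_mk cd _ _ (hws n)⟩
      | succ k ih =>
        obtain ⟨f, hf⟩ := ih
        rw [Function.iterate_succ_apply']
        exact ⟨_, mor_step hm hp hf⟩
    choose f hf using this
    exact ⟨fun h => by_contra fun h' => inf_of hf (run_inf δ b _ h') h,
      fun h => fin_of hf (halt_fin δ b _ h)⟩
  have p1 : Primrec fun n => mk ((ws n).map (enc cd)) := by
    refine prim_mk.comp ?_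
    have : Primrec fun n : ℕ => (rs ++ cells 0 [Sum.inr b] ++ cells 2 [Sum.inl q0] ++
        cells 3 [Sum.inr b]).map (enc cd) ++ cellsD 1 (cd 1 (.inr b) ::
          (List.replicate n (cd 1 (.inr a2)) ++ [cd 1 (.inr a1), cd 1 (.inr a0)])) := by
      apply LeadPrim.PR.prim
      unfold cellsD
      fun_prop
    refine this.of_eq fun n => ?_
    simp only [ws]
    rw [List.map_append (l₂ := cells 1 _), cells_enc]
    simp [emb, s0]
  obtain ⟨f, hf, hf'⟩ := ComputablePred.computable_iff.mp hP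
  refine ComputablePred.computable_iff.mpr ⟨_, hf.comp p1.to_comp, ?_⟩
  funext n
  rw [← congrFun hf' _, key]

end Pool.Agent.Results.MP_bcf1b9_lc.Undecidable
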